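import Pool.Agent.Lib.UCT.Gdef
import Pool.Agent.Lib.UCS.Main
import Pool.Agent.Lib.UCR.Exc
import Pool.Agent.Lib.UCR.Sharp

set_option autoImplicit false

/-!
# The unary composite numbers are inherently ambiguous, on many words, for one-kind push-pop indexed grammars
-/

namespace Pool.Agent.Results.MP_aa59b8_lc.OneKindPushPop

open Pool.Agent.Lib.UCX (Grammar Composite)
open Pool.Agent.Lib.UCT (OneKind)
open Pool.Agent.Lib.UCW (Gen Amb)
open Pool.Agent.Lib.UCV (AmbDer)

/-- An indexed grammar over `{0}` is one-kind push-pop if for some set `P` of variables it has, outside `P`, only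
productions `A → 0^k`, `A → 0^a B 0^b` and `A → B_f`, and for the variables in `P` no productions `A → B_f` and only
productions `A → α`, `A_f → α` such that, for some `B ∈ P`, every symbol of `α` is `0` or `B`. Some one-kind push-pop
grammar generates the set of the `0^c` with `c` composite, and some such grammar generates all `0^n`, without ambiguous
words (words with at least two leftmost derivations). For every one-kind push-pop grammar, all `N`, `C` and `c < 1` it
is not true that for all `s > 1` the sum of the `(n + 1)^(-s)` over the `n` for which `0^n` is in exactly one of the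
language and the set of the composite numbers, plus the sum of the `(n + 1)^(-s)` over all leftmost derivations of
ambiguous words `0^n`, `n > N`, except one derivation of each of these words, is finite and at most `c` times the sum of
the `(p + 1)^(-s)` over the primes, plus `C`.
If the language differs from the composite numbers only in a set of words `0^n` with finite sum of the `1 / (n + 1)`,
then infinitely many words are ambiguous, and for every `N` the sum of the `1 / (n + 1)` over all leftmost derivations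
of ambiguous words `0^n`, `n > N`, is infinite. -/
theorem result :
    (∃ (G : Grammar) (P : Set G.V), OneKind G P ∧ Gen G = {n : ℕ | Composite n}) ∧
    (∃ (G : Grammar) (P : Set G.V), OneKind G P ∧ Gen G = Set.univ ∧ Amb G = ∅) ∧
    ∀ (G : Grammar) (P : Set G.V), OneKind G P →
      (∀ (N : ℕ) (c C : ℝ), c < 1 → ¬ ∀ s : ℝ, 1 < s →
        (Summable fun x : AmbDer G N => ((x.1.1 : ℝ) + 1) ^ (-s)) ∧
        ∑' n : ↥(symmDiff (Gen G) {n : ℕ | Composite n}), (((n : ℕ) : ℝ) + 1) ^ (-s) +
          (∑' x : AmbDer G N, ((x.1.1 : ℝ) + 1) ^ (-s) -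
            ∑' n : ↥{n : ℕ | n ∈ Amb G ∧ N < n}, (((n : ℕ) : ℝ) + 1) ^ (-s)) ≤
          c * ∑' p : Nat.Primes, ((p : ℝ) + 1) ^ (-s) + C) ∧
      ((Summable fun n : ↥(symmDiff (Gen G) {n : ℕ | Composite n}) => 1 / (((n : ℕ) : ℝ) + 1)) →
        (Amb G).Infinite ∧ ∀ N : ℕ, ¬ Summable fun x : AmbDer G N => 1 / ((x.1.1 : ℝ) + 1)) := by
  refine ⟨?_, ?_, fun G P hk => ⟨fun N c C hc => Pool.Agent.Lib.UCR.mainW G P hk N c C hc, fun hL =>
    ⟨Pool.Agent.Lib.UCS.mainI G P hk hL, fun N => Pool.Agent.Lib.UCS.mainR G P hk hL N⟩⟩⟩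
  · obtain ⟨P, hP⟩ := Pool.Agent.Lib.UCT.oneKind_G0
    exact ⟨Pool.Agent.Lib.UCX.G0, P, hP, (Pool.Agent.Lib.UCW.gen_eq _).trans Pool.Agent.Lib.UCX.lang_G0⟩
  · exact ⟨Pool.Agent.Lib.UCR.G1, Set.univ, Pool.Agent.Lib.UCR.oneKind_G1, Pool.Agent.Lib.UCR.gen_G1,
      Pool.Agent.Lib.UCR.amb_G1⟩

end Pool.Agent.Results.MP_aa59b8_lc.OneKindPushPop
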