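import Pool.Agent.Lib.UCZ.Cou

/-!
# The unary composite numbers: indexed grammars with few ambiguous words
-/

set_option autoImplicit false

namespace Pool.Agent.Results.MP_aa59b8_lc.SmallPrimeFactors

open Pool.Agent.Lib.UCX Pool.Agent.Lib.UCZ

/-- For every `K` and every `ε > 0` some indexed grammar generates the set of the `0^c` with `c` composite, such that
`0^c` has exactly one leftmost derivation if `c` is composite and has a prime factor `≤ K`, and if `c = pq` or `c = p³`
with primes `p, q`; the number of leftmost derivations of `0^n` is at most the number of divisors `d` of `n` with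
`1 < d ≤ √n`; and for all large `x` at most `εx` composite numbers below `x` have not exactly one leftmost derivation. -/
theorem result (K : ℕ) (ε : ℝ) (hε : 0 < ε) : ∃ G : Grammar, Lang G = {n | Composite n} ∧
    (∀ n p : ℕ, Composite n → p.Prime → p ≤ K → p ∣ n → (Ders G n).encard = 1) ∧
    (∀ n : ℕ, (Ders G n).encard ≤ ((n.divisors.filter fun d => 1 < d ∧ d * d ≤ n).card : ℕ∞)) ∧
    (∀ p q : ℕ, p.Prime → q.Prime → (Ders G (p * q)).encard = 1) ∧
    (∀ p : ℕ, p.Prime → (Ders G (p ^ 3)).encard = 1) ∧
    ∃ x₀ : ℕ, ∀ x ≥ x₀, (({n : ℕ | n < x ∧ Composite n ∧ (Ders G n).encard ≠ 1}.ncard : ℕ) : ℝ) ≤ ε * x :=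
  few_main K ε hε

end Pool.Agent.Results.MP_aa59b8_lc.SmallPrimeFactors
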